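import Pool.Agent.helper6.Radon.Exact

/-!
The sets with the least number of primitive Radon partitions: definitions of the pieces.
-/

namespace RadonQ2

open RadonMin

section pieces

variable {V : Type*} [AddCommGroup V] [Module ℝ V]

/-- The three points `x`, `y`, `z` lie on a line. -/
def Col (x y z : V) : Prop := Collinear ℝ ({x, y, z} : Set V)

/-- `B` consists of exactly `l` points of a line. -/
def IsLine (l : ℕ) (B : Finset V) : Prop := B.card = l ∧ Collinear ℝ (B : Set V)

/-- `B` is minimally affinely dependent: `B` is not affinely independent, but each of its proper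
subsets is. Equivalently `B` has two points more than the dimension of its affine hull, in which
it lies in general position. -/
def IsCirc (B : Finset V) : Prop :=
  ¬ AffineIndependent ℝ (fun x : B => (x : V)) ∧
    ∀ C : Finset V, C ⊂ B → AffineIndependent ℝ (fun x : C => (x : V))

/-- Five points: two lines with three points each that share one point. -/
def IsCross (B : Finset V) : Prop := ∃ p a b c d : V, B.card = 5 ∧
  (B : Set V) = {p, a, b, c, d} ∧ Col p a b ∧ Col p c d ∧ ¬ Collinear ℝ (B : Set V)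

/-- The six points of a complete quadrilateral (the intersection points of four lines). -/
def IsQuad (B : Finset V) : Prop := ∃ a b c d e f : V, B.card = 6 ∧
  (B : Set V) = {a, b, c, d, e, f} ∧ Col a b c ∧ Col a e f ∧ Col b d f ∧ Col c d e ∧
  ¬ Collinear ℝ (B : Set V)

/-- `q` points of a line and two points off the line whose joining line passes through one of
the `q` points. -/
def IsSecant (q : ℕ) (B : Finset V) : Prop := ∃ (L : Finset V) (p y z : V), B.card = q + 2 ∧
  L.card = q ∧ (B : Set V) = (L : Set V) ∪ {y, z} ∧ Collinear ℝ (L : Set V) ∧ p ∈ L ∧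
  Col p y z ∧ ¬ Collinear ℝ (B : Set V)

/-- Seven points: two lines with four points each that share one point. -/
def IsA44 (B : Finset V) : Prop := ∃ p a b c x y z : V, B.card = 7 ∧
  (B : Set V) = {p, a, b, c, x, y, z} ∧ Collinear ℝ ({p, a, b, c} : Set V) ∧
  Collinear ℝ ({p, x, y, z} : Set V) ∧ ¬ Collinear ℝ (B : Set V)

/-- Seven points: the vertices `x`, `y`, `z` of a triangle and four points `p`, `q`, `r`, `w` of a
line such that `p`, `q`, `r` lie on the three sides. -/
def IsA4333 (B : Finset V) : Prop := ∃ p q r w x y z : V, B.card = 7 ∧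
  (B : Set V) = {p, q, r, w, x, y, z} ∧ Collinear ℝ ({p, q, r, w} : Set V) ∧
  Col y z p ∧ Col x z q ∧ Col x y r ∧ ¬ Collinear ℝ (B : Set V)

/-- Seven points: the vertices `a`, `b`, `c` of a triangle, a point `g`, and the points `d`, `e`,
`f` in which the lines `ga`, `gb`, `gc` meet the opposite sides. -/
def IsA36 (B : Finset V) : Prop := ∃ a b c d e f g : V, B.card = 7 ∧
  (B : Set V) = {a, b, c, d, e, f, g} ∧ Col b c d ∧ Col c a e ∧ Col a b f ∧
  Col a d g ∧ Col b e g ∧ Col c f g ∧ ¬ Collinear ℝ (B : Set V)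

/-- The planar pieces of type `q`, for `q ≥ 4`. -/
def IsTop (q : ℕ) (B : Finset V) : Prop :=
  (5 ≤ q ∧ IsSecant q B) ∨ ((q = 4 ∨ q = 5) ∧ IsQuad B) ∨
    (q = 5 ∧ (IsA44 B ∨ IsA4333 B ∨ IsA36 B))

/-- `S` spans a flat of dimension `d` and is the disjoint union of pieces of kind `K` whose
affine hulls are independent: the numbers `dim + 1` of the pieces add up to `d + 1`. -/
def Splits (K : Finset V → Prop) (d : ℕ) (S : Finset V) : Prop :=
  ∃ P : Finset (Finset V), (∀ B ∈ P, B.Nonempty ∧ K B) ∧
    (P : Set (Finset V)).PairwiseDisjoint id ∧ (∀ x, x ∈ S ↔ ∃ B ∈ P, x ∈ B) ∧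
    Module.finrank ℝ (vectorSpan ℝ (S : Set V)) = d ∧
    ∑ B ∈ P, (Module.finrank ℝ (vectorSpan ℝ (B : Set V)) + 1) = d + 1

/-- As `Splits`, with exactly one piece of kind `T`, all other pieces being of kind `K`. -/
def SplitsTop (T K : Finset V → Prop) (d : ℕ) (S : Finset V) : Prop :=
  ∃ P : Finset (Finset V), (∃ B₀ ∈ P, T B₀ ∧ ∀ B ∈ P, B ≠ B₀ → K B) ∧
    (∀ B ∈ P, B.Nonempty) ∧
    (P : Set (Finset V)).PairwiseDisjoint id ∧ (∀ x, x ∈ S ↔ ∃ B ∈ P, x ∈ B) ∧
    Module.finrank ℝ (vectorSpan ℝ (S : Set V)) = d ∧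
    ∑ B ∈ P, (Module.finrank ℝ (vectorSpan ℝ (B : Set V)) + 1) = d + 1

/-- The explicit description of the extremal sets, by the dimension `d` and the number of
points. -/
def Extremal (d : ℕ) (S : Finset V) : Prop :=
  if d % 2 = 1 then
    -- `d = 2k - 1`
    if S.card ≤ 3 * ((d + 1) / 2) then
      Splits (fun B => B.card = 1 ∨ IsCirc B) d S
    else if S.card ≤ 4 * ((d + 1) / 2) then
      Splits (fun B => IsLine 3 B ∨ IsLine 4 B ∨ IsCross B) d S
    else
      Splits (fun B => IsLine (S.card / ((d + 1) / 2)) B ∨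
        IsLine (S.card / ((d + 1) / 2) + 1) B) d S
  else
    -- `d = 2k`
    if S.card ≤ 3 * (d / 2) + 1 then
      Splits (fun B => B.card = 1 ∨ IsCirc B) d S
    else if S.card ≤ 4 * (d / 2) + 1 then
      Splits (fun B => IsLine 3 B ∨ IsLine 4 B ∨ IsCross B) d S
    else
      SplitsTop (IsTop ((S.card - 2) / (d / 2)))
        (fun B => IsLine ((S.card - 2) / (d / 2)) B ∨ IsLine ((S.card - 2) / (d / 2) + 1) B) d S

end pieces

/-! ### Auxiliary notions for the proof -/

/-- The first family of linear bounds. -/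
def TT (m : ℕ) (n r : ℤ) : ℤ := (m.choose 2 : ℤ) * n - ((m + 1).choose 3 : ℤ) * r

/-- The second family of linear bounds (rank `2 k + 1`). -/
def UU (q : ℕ) (n k : ℤ) : ℤ :=
  (q.choose 2 : ℤ) * (n - q - 2) + hh (q + 2) - (2 * k - 2) * ((q + 1).choose 3 : ℤ)

section aux

variable {V : Type*} [AddCommGroup V] [Module ℝ V] [DecidableEq V]

/-- The number of circuits of a finite set of points. -/
noncomputable def ci (X : Finset V) : ℕ := cc (affMat X)

/-- The rank (dimension of the affine hull plus one, and `0` for the empty set). -/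
noncomputable def ra (X : Finset V) : ℕ := rk (affMat X) (X : Set V)

/-- `X` is the disjoint union of nonempty pieces of kind `K` whose ranks add up. -/
def DecR (K : Finset V → Prop) (X : Finset V) : Prop :=
  ∃ P : Finset (Finset V), (∀ B ∈ P, B.Nonempty ∧ K B) ∧
    (P : Set (Finset V)).PairwiseDisjoint id ∧ (∀ x, x ∈ X ↔ ∃ B ∈ P, x ∈ B) ∧
    ∑ B ∈ P, ra B = ra X

/-- The pieces for `m = 2`. -/
def Kind2 (B : Finset V) : Prop := B.card = 1 ∨ IsCirc B

/-- The pieces for `m ≥ 3`. -/
def KindT (m : ℕ) (B : Finset V) : Prop :=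
  ((B.card = m ∨ B.card = m + 1) ∧ Collinear ℝ (B : Set V)) ∨ (m = 3 ∧ IsCross B)

/-- `X` splits into a piece of kind `T` and the rest, which decomposes into pieces of
kind `K`. -/
def DecTop (T K : Finset V → Prop) (X : Finset V) : Prop :=
  ∃ B₀ : Finset V, B₀ ⊆ X ∧ B₀.Nonempty ∧ T B₀ ∧ DecR K (X \ B₀) ∧
    ra X = ra B₀ + ra (X \ B₀)

end aux

/-- The triples of points of a labelled set forced to be on the line through the points with
labels in `A`, one step. -/
def grow {n : ℕ} (T : Finset (Finset (Fin n))) (A : Finset (Fin n)) : Finset (Fin n) :=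
  A ∪ (Finset.univ.filter fun i => ∃ t ∈ T, i ∈ t ∧ 2 ≤ (t.erase i ∩ A).card)

end RadonQ2
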