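import Pool.Agent.helper88.RQ2.Spec

/-!
Row FEX: the sets with `radonMin d s` circuits are the sets described by `Extremal`.
-/

open Set Matroid RadonMin

namespace RadonQ2

section

variable {V : Type*} [AddCommGroup V] [Module ℝ V]

lemma FEX_kind_three : (fun B : Finset V => IsLine 3 B ∨ IsLine 4 B ∨ IsCross B) = KindT 3 := by
  funext B
  apply propext
  unfold IsLine KindT
  constructor
  · rintro (⟨h1, h2⟩ | ⟨h1, h2⟩ | h)
    · exact Or.inl ⟨Or.inl h1, h2⟩
    · exact Or.inl ⟨Or.inr h1, h2⟩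
    · exact Or.inr ⟨rfl, h⟩
  · rintro (⟨h1 | h1, h2⟩ | ⟨-, h⟩)
    · exact Or.inl ⟨h1, h2⟩
    · exact Or.inr (Or.inl ⟨h1, h2⟩)
    · exact Or.inr (Or.inr h)

lemma FEX_kind_big {m : ℕ} (hm : 4 ≤ m) :
    (fun B : Finset V => IsLine m B ∨ IsLine (m + 1) B) = KindT m := by
  funext B
  apply propext
  unfold IsLine KindT
  constructor
  · rintro (⟨h1, h2⟩ | ⟨h1, h2⟩)
    · exact Or.inl ⟨Or.inl h1, h2⟩
    · exact Or.inl ⟨Or.inr h1, h2⟩
  · rintro (⟨h1 | h1, h2⟩ | ⟨h, -⟩)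
    · exact Or.inl ⟨h1, h2⟩
    · exact Or.inr ⟨h1, h2⟩
    · omega

lemma FEX_kind_two : (fun B : Finset V => B.card = 1 ∨ IsCirc B) = Kind2 := rfl

end

theorem FEX_proof (hRKD : RKD_stmt) (hAR5 : AR5_stmt) (hAR6 : AR6_stmt) (hET2 : ET2_stmt)
    (hKE2 : KE2_stmt) (hETM : ETM_stmt) (hKET : KET_stmt) (hEUM : EUM_stmt) (hFT : FT_stmt)
    (hFU : FU_stmt) (hFSP : FSP_stmt) (hFST : FST_stmt) : FEX_stmt := by
  intro V _ _ _ d X hd hr hs
  have hne : X.Nonempty := by
    rw [← Finset.card_pos]; omega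
  -- the equivalences for a given rank
  have e2 : ∀ r : ℕ, ra X = r → ((ci X : ℤ) = TT 2 X.card r ↔ DecR Kind2 X) := by
    intro r hrr
    constructor
    · intro h
      apply hET2 V X
      rw [hrr]; exact h
    · intro h
      have h1 := hFT V 2 Kind2 X (fun B hB => hKE2 V B hB) h
      rw [hrr] at h1; exact h1
  have em : ∀ m r : ℕ, 3 ≤ m → ra X = r →
      ((ci X : ℤ) = TT m X.card r ↔ DecR (KindT m) X) := by
    intro m r hm hrr
    constructor
    · intro h
      apply hETM V m X hm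
      rw [hrr]; exact h
    · intro h
      have h1 := hFT V m (KindT m) X (fun B hB => hKET V m B hm hB) h
      rw [hrr] at h1; exact h1
  have eu : ∀ q k : ℕ, 4 ≤ q → 1 ≤ k → ra X = 2 * k + 1 →
      ((ci X : ℤ) = UU q X.card k ↔ DecTop (IsTop q) (KindT q) X) := by
    intro q k hq hk hrr
    exact ⟨fun h => hEUM V q k X hq hk hrr h, fun h => hFU V q k X hq hrr h⟩
  -- the general step
  have gen : ∀ (F : ℤ) (D S : Prop), (radonMin d X.card : ℤ) = F →
      (ra X = d + 1 → ((ci X : ℤ) = F ↔ D)) → (S ↔ ra X = d + 1 ∧ D) →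
      (ci X = radonMin d X.card ↔ S) := by
    intro F D S hF hD hS
    constructor
    · intro h
      have hrr := hRKD V d X hd hr hs h
      exact hS.mpr ⟨hrr, (hD hrr).mp (by rw [← hF, h])⟩
    · intro h
      obtain ⟨hrr, hd'⟩ := hS.mp h
      have h1 := (hD hrr).mpr hd'
      rw [← hF] at h1
      exact_mod_cast h1
  unfold Extremal
  split_ifs with hpar h3 h4 h3 h4
  · -- odd, small
    obtain ⟨k, hk⟩ : ∃ k, d = 2 * k - 1 ∧ 1 ≤ k := ⟨(d + 1) / 2, by omega⟩
    obtain ⟨rfl, hk1⟩ := hk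
    have e : (2 * k - 1 + 1) / 2 = k := by omega
    rw [e] at h3
    have h5 := (hAR5 k X.card hk1 (by omega)).2.1 h3
    refine gen _ _ _ h5 (fun hrr => ?_) (hFSP V _ _ X hne)
    have := e2 (2 * k) (by omega)
    rw [FEX_kind_two]
    push_cast at this
    exact this
  · obtain ⟨k, hk⟩ : ∃ k, d = 2 * k - 1 ∧ 1 ≤ k := ⟨(d + 1) / 2, by omega⟩
    obtain ⟨rfl, hk1⟩ := hk
    have e : (2 * k - 1 + 1) / 2 = k := by omega
    rw [e] at h3 h4
    have h5 := (hAR5 k X.card hk1 (by omega)).2.2 (by omega) h4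
    refine gen _ _ _ h5 (fun hrr => ?_) (hFSP V _ _ X hne)
    have := em 3 (2 * k) le_rfl (by omega)
    rw [FEX_kind_three]
    push_cast at this
    exact this
  · obtain ⟨k, hk⟩ : ∃ k, d = 2 * k - 1 ∧ 1 ≤ k := ⟨(d + 1) / 2, by omega⟩
    obtain ⟨rfl, hk1⟩ := hk
    have e : (2 * k - 1 + 1) / 2 = k := by omega
    rw [e] at h3 h4
    rw [e]
    have h5 := (hAR5 k X.card hk1 (by omega)).1
    have hq : 4 ≤ X.card / k := by
      rw [Nat.le_div_iff_mul_le (by omega)]; omega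
    refine gen _ _ _ h5 (fun hrr => ?_) (hFSP V _ _ X hne)
    have := em (X.card / k) (2 * k) (by omega) (by omega)
    rw [FEX_kind_big hq]
    push_cast at this
    exact this
  · obtain ⟨k, rfl⟩ : ∃ k, d = 2 * k := ⟨d / 2, by omega⟩
    have hk1 : 1 ≤ k := by omega
    have e : 2 * k / 2 = k := by omega
    rw [e] at h3
    have h5 := (hAR6 k X.card hk1 hs).1 h3
    refine gen _ _ _ h5 (fun hrr => ?_) (hFSP V _ _ X hne)
    have := e2 (2 * k + 1) hrr
    rw [FEX_kind_two]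
    push_cast at this
    exact this
  · obtain ⟨k, rfl⟩ : ∃ k, d = 2 * k := ⟨d / 2, by omega⟩
    have hk1 : 1 ≤ k := by omega
    have e : 2 * k / 2 = k := by omega
    rw [e] at h3 h4
    have h5 := (hAR6 k X.card hk1 hs).2.1 (by omega) h4
    refine gen _ _ _ h5 (fun hrr => ?_) (hFSP V _ _ X hne)
    have := em 3 (2 * k + 1) le_rfl hrr
    rw [FEX_kind_three]
    push_cast at this
    exact this
  · obtain ⟨k, rfl⟩ : ∃ k, d = 2 * k := ⟨d / 2, by omega⟩
    have hk1 : 1 ≤ k := by omega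
    have e : 2 * k / 2 = k := by omega
    rw [e] at h3 h4
    rw [e]
    have h5 := (hAR6 k X.card hk1 hs).2.2 (by omega)
    have hq : 4 ≤ (X.card - 2) / k := by
      rw [Nat.le_div_iff_mul_le (by omega)]; omega
    refine gen _ _ _ h5 (fun hrr => ?_) (hFST V _ _ _ X hne)
    rw [FEX_kind_big hq]
    exact eu _ k hq hk1 hrr

end RadonQ2
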