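import Pool.Agent.helper88.RQ2.Spec

/-!
Row RKD: an extremal set spans the space.
-/

open Set Matroid RadonMin

namespace RadonQ2

theorem RKD_proof (hRLE : RLE_stmt) (hAR4 : AR4_stmt) (hEB : EB_stmt) : RKD_stmt := by
  intro V _ _ _ d X hd hr hs hc
  by_contra hne
  have hr' : ra X ≤ d := by omega
  rcases Nat.lt_or_ge d 2 with h | h
  · have h1 := (hEB V).2.2.2.2.2.2 X (by omega)
    omega
  · obtain ⟨e, rfl⟩ : ∃ e, d = e + 1 := ⟨d - 1, by omega⟩
    have h1 := hRLE V e X (by omega) hr' (by omega)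
    have h2 := hAR4 e X.card (by omega) (by omega)
    omega

end RadonQ2
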