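import Pool.Agent.helper1.RQ2.C0
import Pool.Agent.helper11.RQ2.ESPL
import Pool.Agent.helper11.RQ2.EUM
import Pool.Agent.helper13.RQ2.RLE
import Pool.Agent.helper15.RQ2.ECI
import Pool.Agent.helper16.RQ2.GCO
import Pool.Agent.helper2.RQ2.FIN
import Pool.Agent.helper20.RQ2.GCI
import Pool.Agent.helper21.RQ2.ETM
import Pool.Agent.helper24.RQ2.C8
import Pool.Agent.helper25.RQ2.VS
import Pool.Agent.helper26.RQ2.ET2
import Pool.Agent.helper26.RQ2.FU
import Pool.Agent.helper27.RQ2.ESUM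
import Pool.Agent.helper29.RQ2.MSUM
import Pool.Agent.helper30.RQ2.FT
import Pool.Agent.helper31.RQ2.GAI
import Pool.Agent.helper33.RQ2.C7L
import Pool.Agent.helper34.RQ2.V2
import Pool.Agent.helper38.RQ2.AST
import Pool.Agent.helper39.RQ2.VX
import Pool.Agent.helper4.RQ2.MU5
import Pool.Agent.helper40.RQ2.EUN
import Pool.Agent.helper41.RQ2.C7S
import Pool.Agent.helper42.RQ2.ASU
import Pool.Agent.helper44.RQ2.CTOP
import Pool.Agent.helper46.RQ2.KE2
import Pool.Agent.helper47.RQ2.V1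
import Pool.Agent.helper48.RQ2.KEU
import Pool.Agent.helper49.RQ2.GTR
import Pool.Agent.helper51.RQ2.C5
import Pool.Agent.helper57.RQ2.EB
import Pool.Agent.helper59.RQ2.MST
import Pool.Agent.helper6.RQ2.VY
import Pool.Agent.helper60.RQ2.AR4
import Pool.Agent.helper63.RQ2.AR5
import Pool.Agent.helper64.RQ2.MS2
import Pool.Agent.helper67.RQ2.MS3
import Pool.Agent.helper72.RQ2.GRA
import Pool.Agent.helper75.RQ2.FSP
import Pool.Agent.helper77.RQ2.VT
import Pool.Agent.helper8.RQ2.VZ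
import Pool.Agent.helper82.RQ2.MSU
import Pool.Agent.helper83.RQ2.FST
import Pool.Agent.helper85.RQ2.AR6
import Pool.Agent.helper87.RQ2.C6
import Pool.Agent.helper88.RQ2.FEX
import Pool.Agent.helper88.RQ2.RKD
import Pool.Agent.helper89.RQ2.KET
import Pool.Agent.helper9.RQ2.MSX
import Pool.Agent.helper90.RQ2.AR2
import Pool.Agent.helper97.RQ2.AR1
import Pool.Agent.helper97.RQ2.AUD
import Pool.Agent.helper98.RQ2.AR3

/-!
Assembly of all rows: the sets with the least number of primitive Radon partitions.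
-/

namespace RadonQ2

theorem A_MSUM : MSUM_stmt := MSUM_proof
theorem A_MS2 : MS2_stmt := MS2_proof
theorem A_MS3 : MS3_stmt := MS3_proof A_MSUM
theorem A_AST : AST_stmt := AST_proof
theorem A_MST : MST_stmt := MST_proof A_MS3 A_AST
theorem A_AUD : AUD_stmt := AUD_proof
theorem A_ASU : ASU_stmt := ASU_proof
theorem A_MSU : MSU_stmt := MSU_proof A_AUD A_ASU
theorem A_MU5 : MU5_stmt := MU5_proof A_MSUM
theorem A_MSX : MSX_stmt := MSX_proof A_MS3 A_MSU A_MU5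
theorem A_AR1 : AR1_stmt := AR1_proof
theorem A_AR2 : AR2_stmt := AR2_proof
theorem A_AR3 : AR3_stmt := AR3_proof
theorem A_AR5 : AR5_stmt := AR5_proof
theorem A_AR6 : AR6_stmt := AR6_proof
theorem A_AR4 : AR4_stmt := AR4_proof A_AR5
theorem A_GAI : GAI_stmt := GAI_proof
theorem A_GCI : GCI_stmt := GCI_proof A_GAI
theorem A_GTR : GTR_stmt := GTR_proof A_GAI
theorem A_GRA : GRA_stmt := GRA_proof A_GAI
theorem A_GCO : GCO_stmt := GCO_proof A_GRA
theorem A_EB : EB_stmt := EB_proof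
theorem A_ESPL : ESPL_stmt := ESPL_proof A_EB
theorem A_ECI : ECI_stmt := ECI_proof A_EB
theorem A_ESUM : ESUM_stmt := ESUM_proof A_EB A_ECI
theorem A_EUN : EUN_stmt := EUN_proof
theorem A_C0 : C0_stmt := C0_proof
theorem A_C5 : C5_stmt := C5_proof A_GTR A_GCO
theorem A_C6 : C6_stmt := C6_proof A_GTR A_GCO
theorem A_C7S : C7S_stmt := C7S_proof A_GTR A_GCO
theorem A_C7L : C7L_stmt := C7L_proof A_GTR A_GCO A_C0 A_EB
theorem A_C8 : C8_stmt := C8_proof A_GTR A_GCO A_C0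
theorem A_V1 : V1_stmt := V1_proof A_GCO
theorem A_V2 : V2_stmt := V2_proof A_GCI
theorem A_VT : VT_stmt := VT_proof A_GTR A_GCO
theorem A_VX : VX_stmt := VX_proof A_VT
theorem A_VY : VY_stmt := VY_proof A_VT
theorem A_VZ : VZ_stmt := VZ_proof A_VT A_GTR
theorem A_VS : VS_stmt := VS_proof A_GCO A_EB
theorem A_KET : KET_stmt := KET_proof A_EB A_GCO A_V1 A_VX
theorem A_KE2 : KE2_stmt := KE2_proof A_EB A_V1 A_V2
theorem A_KEU : KEU_stmt := KEU_proof A_VX A_VY A_VZ A_VS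
theorem A_ET2 : ET2_stmt := ET2_proof A_MS2 A_EB A_ESPL A_ECI A_EUN A_GCI
theorem A_ETM : ETM_stmt := ETM_proof A_MST A_AR2 A_AR3 A_C5 A_V1 A_GCO A_EB A_ESPL A_ECI A_EUN
theorem A_CTOP : CTOP_stmt := CTOP_proof A_AR1 A_C6 A_C7S A_C7L A_C8
theorem A_EUM : EUM_stmt := EUM_proof A_MSX A_CTOP A_ETM A_EB A_ESPL A_ECI A_EUN
theorem A_FT : FT_stmt := FT_proof A_ESUM
theorem A_FU : FU_stmt := FU_proof A_ECI A_KEU A_KET A_FT
theorem A_FSP : FSP_stmt := FSP_proof A_GRA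
theorem A_FST : FST_stmt := FST_proof A_GRA A_EB
theorem A_RLE : RLE_stmt := RLE_proof
theorem A_RKD : RKD_stmt := RKD_proof A_RLE A_AR4 A_EB
theorem A_FEX : FEX_stmt := FEX_proof A_RKD A_AR5 A_AR6 A_ET2 A_KE2 A_ETM A_KET A_EUM A_FT A_FU A_FSP A_FST
theorem A_FIN : FIN_stmt := FIN_proof A_FEX

end RadonQ2
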