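import Pool.Agent.helper88.RQ2.Defs

/-!
# Project RQ (MP_bb0bb6_co, question Q2): the sets with the least number of primitive Radon
partitions

Final theorem: for `S` a set of `s ≥ d + 2` points of the `d`-dimensional Euclidean space,
`π(S) ≤ π(T)` for all `T` with `s` points if and only if `Extremal d S` (see `Defs.lean`).

Notation: `n` = number of points (`M.E.ncard` or `X.card`), `r` = rank. Helper6's files
`Pool/Agent/helper6/Radon/*.lean` (namespace `RadonMin`) contain the lower bounds used here: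
`ce_lower`, `T_bound`, `U_bound`, `hh_tangent`, `T_le_hh`, `T_le_choose_three`,
`cc_eq_delete_add_ce`, `cc_add_le`, `subset_or_subset_of_rk`, `Conn.exists_common_circuit`,
`rk_sdiff_singleton_of_circuit`, `Simp.delete`, `Good.delete`, `rk_delete`, `rk_restrict`,
`Simp.restrict`, `Good.restrict`, `LineData` (longest line), `cc_ge_trace`, `cc_ge_short`,
`circuit_in_line`, `not_fano`, `affMat_simp`, `affMat_good`, `affMat_restrict`, `fcircuit_iff`,
`radonMin_le_cc`, `exists_min`, `ncard_primitive_eq`.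
Each row proves `theorem X_proof (hyps : other _stmt's) : X_stmt`.
-/

open Set Matroid RadonMin

namespace RadonQ2

/-! ## A. Strictness of the linear bounds for connected matroids -/

/-- MSUM. Double counting of the pairs `(e, C)`, `e ∈ C`, `C` a circuit:
`∑_e ce M e = ∑_C |C|`. -/
def MSUM_stmt : Prop := ∀ (α : Type) (M : Matroid α) [M.Finite] (a b : ℕ),
  (∀ C, M.IsCircuit C → C.ncard ≤ b) → (∀ e ∈ M.E, a ≤ ce M e) → M.E.ncard * a ≤ cc M * b

/-- MS2. `TT 2 n r = n - r`. Proof: let `n ≥ 2`. By `ce_lower` with `j = 1`,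
`ce M e ≥ (n-1) - (r-1) = n - r = cc M` for each `e ∈ E`, so `ce M e = cc M` and each circuit
contains each element of `E`, hence equals `E`. There is a circuit by
`Conn.exists_common_circuit`. -/
def MS2_stmt : Prop := ∀ (α : Type) (M : Matroid α) [M.Finite], Simp M → Conn M →
  (cc M : ℤ) = TT 2 M.E.ncard (rk M M.E) → M.E.ncard ≤ 1 ∨ M.IsCircuit M.E

/-- MS3. `TT 3 n r = 3 n - 4 r = 3 c - r` with `c = n - r`. Proof: `n ≥ r ≥ 4`; each `e ∈ E` lies
in a circuit (`Conn.exists_common_circuit`), so `M ＼ {e}` has rank `r`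
(`rk_sdiff_singleton_of_circuit`, `rk_delete`), `n - 1` elements, is `Simp` and `Good`.
`T_bound` for `M ＼ {e}` with `m = 2` and `m = 3`: `cc (M ＼ {e}) ≥ n - 1 - r = c - 1` and
`cc (M ＼ {e}) ≥ 3 (n - 1) - 4 r = TT 3 n r - 3`; `ce_lower` with `j = 1`: `ce M e ≥ c`.
(i) If `c ≤ r - 2` then `cc M ≥ (c - 1) + c > 3 c - r`. (ii) If `c ≥ 4` then
`cc M ≥ (TT 3 n r - 3) + 4`. (iii) Otherwise `3 ≤ r - 1 ≤ c ≤ 3`: `c = 3`, `r = 4`, `n = 7`,
`TT 3 7 4 = 5`. Suppose `cc M ≤ 5`. As `cc (M ＼ {e}) ≥ 2` and `ce M e ≥ 3` for each `e`, we get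
`cc M = 5`, `ce M e = 3`, `cc (M ＼ {e}) = 2` for each `e`. Let `C` be a circuit of `M`; `|C| ≤ 5`
(`rk_circuit`), so some `e ∈ E` is not in `C` and `C` is one of the two circuits `C ≠ C'` of
`M ＼ {e}`. They are disjoint: for `x ∈ C ∩ C'` circuit elimination would give a third circuit
inside `(C ∪ C') \ {x}`. As both have at least three of the six elements, `|C| = 3`. So all
circuits have three elements and MSUM with `a = 3`, `b = 3` gives `21 ≤ 15`, a contradiction. -/
def MS3_stmt : Prop := ∀ (α : Type) (M : Matroid α) [M.Finite], Simp M → Good M → Conn M →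
  4 ≤ rk M M.E → TT 3 M.E.ncard (rk M M.E) < cc M

/-- AST. Strict form of `deletion_T`. Proof: case `m = 2 j`: `N ≥ j (R + 1)`, and
`j N - tj R - cm ≥ j² (R + 1) - j (j + 1) R / 2 - (2 j² - j) = (j² - j) (R - 2) / 2 > 0`.
Case `m = 2 j + 1`: `2 N + 2 ≥ (2 j + 1) (R + 1) + 1`, i.e. `2 N ≥ 2 j R + 2 j + R`, so
`j N - tj R - cm ≥ j² R / 2 + j² - (2 j² + j) = j² (R - 2) / 2 - j`, which is `> 0` for `R ≥ 4`
(`j ≥ 2`); for `R = 3` parity gives `2 N ≥ 2 j R + 2 j + R + 1`, i.e. `N ≥ 4 j + 2`, and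
`j (4 j + 2) - 3 j (j + 1) / 2 - (2 j² + j) = (j² - j) / 2 > 0`. -/
def AST_stmt : Prop := ∀ m N R j tj cm : ℤ, 2 ≤ j → 3 ≤ R → (m = 2 * j ∨ m = 2 * j + 1) →
  2 * tj = j * (j + 1) → 2 * cm = m * (m - 1) → m * (R + 1) < 2 * (N + 1) → cm < j * N - tj * R

/-- MST. Proof: induction on `m`, the case `m = 3` is MS3. Let `m ≥ 4`.
`2 (TT m n r - TT (m-1) n r) = (m - 1) (2 n - m r)`. If `2 n ≤ m r` then
`TT m n r ≤ TT (m-1) n r < cc M`. Otherwise take any `e ∈ E` and `j = m / 2 ≥ 2`: as in MS3,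
`cc (M ＼ {e}) ≥ TT m (n-1) r = TT m n r - C(m,2)` (`T_bound`) and by `ce_lower` and AST (with
`N = n - 1`, `R = r - 1`) `ce M e ≥ j (n-1) - C(j+1,2) (r-1) > C(m,2)`. Add
(`cc_eq_delete_add_ce`). -/
def MST_stmt : Prop := ∀ (α : Type) (M : Matroid α) [M.Finite], Simp M → Good M → Conn M →
  4 ≤ rk M M.E → ∀ m : ℕ, 3 ≤ m → TT m M.E.ncard (rk M M.E) < cc M

/-- AUD. Proof: `hh_succ`, `choose_two_succ`, `choose_three_succ`, `two_mul_choose_two`,
`six_mul_choose_three`. -/
def AUD_stmt : Prop := ∀ (q : ℕ) (n k : ℤ), 2 ≤ q →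
  UU (q + 1) n k - UU q n k = q * (n - 1 - (q + 1) * k) - ((corr (q + 2) : ℤ) - corr (q + 1))

/-- ASU. Strict form of `deletion_U`. Proof: for `q = 2 j`:
`j N - 2 k tj - cq = j (N - (q k + 1)) + (j² - j) (k - 2)`; for `q = 2 j + 1`:
`j N - 2 k tj - cq = j (N - (q k + 1)) + j² (k - 2)`. -/
def ASU_stmt : Prop := ∀ q N k j tj cq : ℤ, 2 ≤ j → 2 ≤ k → (q = 2 * j ∨ q = 2 * j + 1) →
  2 * tj = j * (j + 1) → 2 * cq = q * (q - 1) → q * k + 1 ≤ N → (3 ≤ k ∨ q * k + 2 ≤ N) →
  cq < j * N - tj * (2 * k)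

/-- MSU. One induction step. Proof: if `n ≤ q k + 1` then `UU q n k ≤ UU (q-1) n k` by AUD
(`corr_mono`). Let `n ≥ q k + 2`, `e ∈ E`, `j = q / 2 ≥ 2`. As in MS3, `M ＼ {e}` is simple, good,
of rank `2 k + 1` with `n - 1` elements, so `cc (M ＼ {e}) ≥ UU q (n-1) k = UU q n k - C(q,2)`
(`U_bound`), and `ce M e ≥ j (n-1) - C(j+1,2) (2 k)` (`ce_lower`). If `k ≥ 3` or
`n - 1 ≥ q k + 2`, then ASU (with `N = n - 1`) gives `ce M e > C(q,2)` and we add. Otherwise
`k = 2` and `n = 2 q + 2`, so `q ≠ 5` by the last hypothesis; `deletion_U` gives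
`ce M e ≥ C(q,2)`, and `U_bound` for `M ＼ {e}` with `q - 1` gives
`cc (M ＼ {e}) ≥ UU (q-1) (2 q + 1) 2 = UU q (2 q + 1) 2 + (corr (q+1) - corr q)`
`≥ UU q (2 q + 1) 2 + 1` by AUD, because `corr (q+1) > corr q` for `q ≥ 4`, `q ≠ 5`. -/
def MSU_stmt : Prop := ∀ (α : Type) (M : Matroid α) [M.Finite], Simp M → Good M → Conn M →
  ∀ k : ℕ, 2 ≤ k → rk M M.E = 2 * k + 1 → ∀ q : ℕ, 4 ≤ q → UU (q - 1) M.E.ncard k < cc M →
  ¬ (q = 5 ∧ k = 2 ∧ M.E.ncard = 12) → UU q M.E.ncard k < cc M

/-- MU5. The exceptional case. Proof: suppose `cc M ≤ 27`. For each `e ∈ E`, `N = M ＼ {e}` is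
simple, good, of rank `5` with `11` elements; `U_bound` (`k = 2`, `q = 5`): `cc N ≥ 17`
(`10 * 4 + 17 - 2 * 20`); `ce_lower` (`j = 2`): `ce M e ≥ 2 * 11 - 3 * 4 = 10`. Hence
`cc M = 27`, `ce M e = 10` and `cc N = 17` for each `e`. Claim: each circuit `C` of `M` has at
most four elements. `|C| ≤ 6`, so there is `e ∈ E \ C` and `C` is a circuit of `N = M ＼ {e}`. By
the last hypothesis `N` is not `Conn`, so there is `A ⊆ N.E`, `A` and `B = N.E \ A` nonempty,
`rk N A + rk N B ≤ 5`. If both ranks are at most `3`, then `C ⊆ A` or `C ⊆ B`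
(`subset_or_subset_of_rk`) and `|C| = rk N C + 1 ≤ 4` (`rk_circuit`). Otherwise one of them, say
`A`, has rank at most `1`, so `|A| ≤ 1` (`ncard_le_one_of_rk` for `N ↾ A`), `|B| ≥ 10`, the rank
of `B` is at most `4` (as `A` has rank `1`), and `T_bound` for `N ↾ B` with `m = 5` gives
`17 = cc N ≥ cc (N ↾ B) ≥ 10 * 10 - 20 * 4 = 20`, a contradiction. Now MSUM with `a = 10`,
`b = 4` gives `120 ≤ 27 * 4 = 108`, a contradiction. -/
def MU5_stmt : Prop := ∀ (α : Type) (M : Matroid α) [M.Finite], Simp M → Good M → Conn M →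
  rk M M.E = 5 → M.E.ncard = 12 →
  (∀ (N : Matroid α) [N.Finite], Simp N → Good N → Conn N → rk N N.E = 5 → N.E.ncard = 11 →
    17 < cc N) → 27 < cc M

/-- MSX. Proof: induction on `q` (for all `M`, `k`). `UU 3 n k = TT 3 n (2 k + 1)` (both are
`3 n - 8 k - 4`), so `q = 3` is MS3. For `q ≥ 4` use MSU, except for `q = 5`, `k = 2`, `n = 12`,
where MU5 and the case `q = 4` (`UU 4 11 2 = 6 * 5 + 7 - 2 * 10 = 17`) are used
(`UU 5 12 2 = 10 * 5 + 17 - 2 * 20 = 27`). -/
def MSX_stmt : Prop := ∀ (α : Type) (M : Matroid α) [M.Finite], Simp M → Good M → Conn M →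
  ∀ k : ℕ, 2 ≤ k → rk M M.E = 2 * k + 1 → ∀ q : ℕ, 3 ≤ q → UU q M.E.ncard k < cc M

/-! ## B. Arithmetic -/

/-- AR1. Equality in `hh_tangent`. Proof: `hh (i+1) - hh i = C(i-1,2) - (corr i - corr (i-1))`
(`hh_succ`), where `corr i - corr (i-1)` is `0` for `i ≤ 3` and `i = 6`, is `1` for `i = 4` and
`i ≥ 7` and `2` for `i = 5`. For `i ≥ q + 2` the increment is at least `C(q+1,2) - 2 > C(q,2)`,
so `hh` is strictly above the tangent for `n > q + 2`. For `i = q + 1` the increment is
`C(q,2) - (corr (q+1) - corr q)`, which is `< C(q,2)` unless `q = 5`; for `i ≤ q` the increment is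
at most `C(q-1,2) < C(q,2)`. So for `n < q + 2`, `hh` is strictly above the tangent unless `q = 5`
and `n = 6`. (Or sharpen the induction in the proof of `hh_tangent`.) -/
def AR1_stmt : Prop := ∀ q n : ℕ, 4 ≤ q → 3 ≤ n →
  (q.choose 2 : ℤ) * ((n : ℤ) - q - 2) + hh (q + 2) = hh n → n = q + 2 ∨ (q = 5 ∧ n = 6)

/-- AR2. Equality in `T_le_hh`. Proof:
`hh_tangent - T = hh (m+2) - C(m,2) = C(m,3) - corr (m+1)` (compare `T_le_hh`,
`choose_two_le_hh`), which is positive for `m ≥ 4`. For `m = 3` the claim is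
`3 n - 12 = hh n → n = 5`: `hh 3 = 0`, `hh 4 = 1`, `hh 5 = 3`, `hh 6 = 7`, and
`hh n > 3 n - 12` for `n ≥ 6` (increments at least `3`). -/
def AR2_stmt : Prop := ∀ m n : ℕ, 3 ≤ m → 3 ≤ n →
  (m.choose 2 : ℤ) * n - (m + 1).choose 3 * 3 = hh n → m = 3 ∧ n = 5

/-- AR3. Equality in `T_le_choose_three`. Proof:
`6 (C(n,3) - C(m,2) n + 2 C(m+1,3)) = (n - m) (n - m - 1) (n + 2 m - 2)`. -/
def AR3_stmt : Prop := ∀ m n : ℕ, 2 ≤ m →
  (m.choose 2 : ℤ) * n - (m + 1).choose 3 * 2 = n.choose 3 → n = m ∨ n = m + 1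

/-- AR5. Proof: `bal_eq` with `s = q k + t`, `q = s / k`, and
`C(q,2) q = 2 C(q+1,3) + C(q,3)` (see the proof of `radonMin_le_cc`); for `s ≤ 3 k` use
`s = 2 k + t`, `t ≤ k`, for `3 k ≤ s ≤ 4 k` use `s = 3 k + t`, `t ≤ k`. -/
def AR5_stmt : Prop := ∀ k s : ℕ, 1 ≤ k → 2 * k + 1 ≤ s →
  (radonMin (2 * k - 1) s : ℤ) = TT (s / k) s (2 * k) ∧
  (s ≤ 3 * k → (radonMin (2 * k - 1) s : ℤ) = TT 2 s (2 * k)) ∧
  (3 * k ≤ s → s ≤ 4 * k → (radonMin (2 * k - 1) s : ℤ) = TT 3 s (2 * k))

/-- AR6. Proof: as in `radonMin_le_cc`: `s - 1 = q k + t` with `1 ≤ t ≤ k`, `q = (s - 2) / k`,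
`radonMin (2 k) s = k C(q,3) + t C(q,2) - corr (q+1)`; it equals `UU q s k`
(`hh_cast`), and `UU 2 s k = TT 2 s (2 k + 1)`, `UU 3 s k = TT 3 s (2 k + 1)`. -/
def AR6_stmt : Prop := ∀ k s : ℕ, 1 ≤ k → 2 * k + 2 ≤ s →
  (s ≤ 3 * k + 1 → (radonMin (2 * k) s : ℤ) = TT 2 s (2 * k + 1)) ∧
  (3 * k + 2 ≤ s → s ≤ 4 * k + 1 → (radonMin (2 * k) s : ℤ) = TT 3 s (2 * k + 1)) ∧
  (4 * k + 2 ≤ s → (radonMin (2 * k) s : ℤ) = UU ((s - 2) / k) s k)

/-- AR4. The minimum strictly decreases with the dimension. Proof. (a) `d = 2 k - 1`: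
`radonMin (2 k) s ≤ bal k (s - 1) < bal k s = radonMin (2 k - 1) s`, because
`bal k s - bal k (s - 1) = C((s-1)/k, 2) ≥ 1` (write `s - 1 = q k + t` with `t < k`, `q ≥ 2`, and
use `bal_eq` twice). (b) `d = 2 k`: let `q = s / (k + 1) ≥ 2`; by AR5,
`radonMin (2 k + 1) s = TT q s (2 k + 2)`. By `exists_min` (`HasSet'.hasSet`) there is a set `S` of
`s` points in dimension `2 k` with `cc (affMat S) ≤ radonMin (2 k) s`; its rank `r` is at most
`2 k + 1` (`rk_affMat_le`), so `TT q s (2 k + 2) < TT q s (2 k + 1) ≤ TT q s r ≤ cc (affMat S)`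
(`T_bound`, `C(q+1,3) ≥ 1`). -/
def AR4_stmt : Prop := ∀ d s : ℕ, 1 ≤ d → d + 3 ≤ s → radonMin (d + 1) s < radonMin d s

/-! ## C. Geometry -/

/-- GAI. `AffInd` is affine independence. Proof: `affineIndependent_iff` (sums over finsets of the
index type with weights; for a finite index type one may take all of it). -/
def GAI_stmt : Prop := ∀ (V : Type) [AddCommGroup V] [Module ℝ V] [DecidableEq V] (B : Finset V),
  AffInd B ↔ AffineIndependent ℝ (fun x : B => (x : V))

/-- GCI. Circuits. Proof: `fcircuit_iff`, GAI, `FCircuit C` is: not `AffInd C`, and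
`AffInd (C.erase x)` for `x ∈ C`; every proper subset lies in some `C.erase x`. -/
def GCI_stmt : Prop := ∀ (V : Type) [AddCommGroup V] [Module ℝ V] [DecidableEq V]
  (X B : Finset V), B ⊆ X → ((affMat X).IsCircuit (B : Set V) ↔ IsCirc B)

/-- GTR. Proof: three distinct points; `Tri` is `IsCircuit {x, y, z}`; pairs of distinct points
are affinely independent (`affMat_simp`), so `{x, y, z}` is a circuit iff it is not `AffInd`, i.e.
(GAI) not affinely independent, i.e. collinear (`affineIndependent_iff_not_collinear_set`). -/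
def GTR_stmt : Prop := ∀ (V : Type) [AddCommGroup V] [Module ℝ V] [DecidableEq V]
  (X : Finset V) (x y z : V), x ∈ X → y ∈ X → z ∈ X → x ≠ y → y ≠ z → x ≠ z →
  (Tri (affMat X) x y z ↔ Col x y z)

/-- GRA. Proof: let `I` be a basis of `X` in `affMat X`; `ra X = |I|` (`rk_eq_ncard_of_isBasis`);
`I` is affinely independent (GAI) and each point of `X` is an affine combination of `I` (else `I`
with this point would be affinely independent), so `vectorSpan X = vectorSpan I` has dimension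
`|I| - 1` (`AffineIndependent.finrank_vectorSpan`). -/
def GRA_stmt : Prop := ∀ (V : Type) [AddCommGroup V] [Module ℝ V] [DecidableEq V]
  (X : Finset V), X.Nonempty → ra X = Module.finrank ℝ (vectorSpan ℝ (X : Set V)) + 1

/-- GCO. Proof: GRA and `collinear_iff_finrank_le_one`. -/
def GCO_stmt : Prop := ∀ (V : Type) [AddCommGroup V] [Module ℝ V] [DecidableEq V]
  (X : Finset V), ra X ≤ 2 ↔ Collinear ℝ (X : Set V)

/-- EB. Basic properties of `ra`. Proof: for `A ⊆ X`, `rk (affMat X) A = ra A` by `rk_restrict` and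
`affMat_restrict`; then `rk_mono`, `rk_union_le` (inside `affMat (A ∪ B)`), `rk_le_ncard`;
`affMat_simp` gives rank `≥ 1` for nonempty sets and rank `≥ 2` for sets with at least two
elements (`Simp.indep_of_ncard_le`). -/
def EB_stmt : Prop := ∀ (V : Type) [AddCommGroup V] [Module ℝ V] [DecidableEq V],
  (∀ A X : Finset V, A ⊆ X → rk (affMat X) (A : Set V) = ra A) ∧
  (∀ A X : Finset V, A ⊆ X → ra A ≤ ra X) ∧
  (∀ A B : Finset V, ra (A ∪ B) ≤ ra A + ra B) ∧
  (∀ A : Finset V, ra A ≤ A.card) ∧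
  (ra (∅ : Finset V) = 0) ∧
  (∀ A : Finset V, A.Nonempty → 1 ≤ ra A) ∧
  (∀ A : Finset V, 2 ≤ A.card → 2 ≤ ra A)

/-- ESPL. Proof: negate `Conn` (with `(affMat X).E = X`), a subset of `X` is the coercion of a
finset; `≥` by subadditivity (EB). -/
def ESPL_stmt : Prop := ∀ (V : Type) [AddCommGroup V] [Module ℝ V] [DecidableEq V]
  (X : Finset V), ¬ Conn (affMat X) → ∃ A ⊆ X, A.Nonempty ∧ (X \ A).Nonempty ∧
    ra A + ra (X \ A) = ra X

/-- ECI. Proof: `subset_or_subset_of_rk` with EB: each circuit lies in `A` or in `X \ A`, not in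
both; the circuits of `affMat X` inside `A` are those of `affMat A` (`affMat_restrict`,
`restrict_isCircuit_iff`). -/
def ECI_stmt : Prop := ∀ (V : Type) [AddCommGroup V] [Module ℝ V] [DecidableEq V]
  (X A : Finset V), A ⊆ X → ra A + ra (X \ A) = ra X → ci X = ci A + ci (X \ A)

/-- ESUM. Proof: induction on `P`: for `B ∈ P` the union `X' = X \ B` of the other pieces
satisfies `ra X ≤ ra B + ra X'` and `ra X' ≤ ∑ ra` over the other pieces (subadditivity, EB), so
both are equalities; use ECI and the induction hypothesis. -/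
def ESUM_stmt : Prop := ∀ (V : Type) [AddCommGroup V] [Module ℝ V] [DecidableEq V]
  (P : Finset (Finset V)) (X : Finset V), (P : Set (Finset V)).PairwiseDisjoint id →
  (∀ x, x ∈ X ↔ ∃ B ∈ P, x ∈ B) → ∑ B ∈ P, ra B = ra X →
  ci X = ∑ B ∈ P, ci B ∧ X.card = ∑ B ∈ P, B.card

/-- EUN. Proof: the union of the two partitions (disjoint because the pieces are nonempty). -/
def EUN_stmt : Prop := ∀ (V : Type) [AddCommGroup V] [Module ℝ V] [DecidableEq V]
  (K : Finset V → Prop) (X A : Finset V), A ⊆ X → ra A + ra (X \ A) = ra X →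
  DecR K A → DecR K (X \ A) → DecR K X

/-! ## D. Rank three: the sets with `hh n` circuits

Use `exists_lineData (affMat X)`: it gives `E' = X` and a longest line `L` with `l` points; let
`u = n - l`. `3`-circuits are the collinear triples (GTR). -/

/-- C0. Sharper count in `cc_ge_trace`: if one pair `Y` of points outside the line is on no line
with a point of `L`, this pair contributes `C(l,2) = 1 + C(l-1,2) + (l - 2)` circuits instead of
`1 + C(l-1,2)`. Copy the proof of `cc_ge_trace` (SevenPts.lean); in `f2` bound the term of this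
`Y` by the second case of the proof (all pairs of `L`). -/
def C0_stmt : Prop := ∀ (α : Type) [DecidableEq α] (M : Matroid α) [M.Finite] (E' L : Finset α),
  LineData M E' L → 4 ≤ L.card → ∀ Y ∈ (E' \ L).powersetCard 2,
  (∀ p ∈ L, ¬ M.IsCircuit ((insert p Y : Finset α) : Set α)) →
  L.card.choose 3 + (E' \ L).card.choose 2 * (1 + (L.card - 1).choose 2)
    + (E' \ L).card.choose 3 + (L.card - 2) ≤ cc M

/-- C5. Proof: if `l ≥ 4` then `l = 4` (rank three), and `C(4,3) = 4 > 3` circuits lie in the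
line. So `l ≤ 3` and `cc_ge_short` gives `5 + t ≤ 3 + 2 t`, i.e. at least two collinear triples.
Two distinct collinear triples share at most one point (`triangles_unique`), and at least one as
there are five points: `{p, a, b}` and `{p, c, d}`. -/
def C5_stmt : Prop := ∀ (V : Type) [AddCommGroup V] [Module ℝ V] [DecidableEq V]
  (X : Finset V), ra X = 3 → X.card = 5 → ci X ≤ 3 → IsCross X

/-- C6. Proof: if `l ≥ 4`: `l = 5` gives at least `C(5,3) = 10` circuits and `l = 4`, `u = 2`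
gives at least `4 + 1 * (1 + 3) = 8` circuits (`cc_ge_trace`). So `l ≤ 3`, and `cc_ge_short`
gives `15 + t ≤ 7 + 3 t`, so there are `t ≥ 4` collinear triples, any two sharing at most one point
(`triangles_unique`). Each point lies on at most two of them, so `3 t ≤ 12`, `t = 4`, and each
point is on exactly two. Let `{a, b, c}` be one; `a` is on another one `{a, e, f}`; let `d` be the
sixth point. The other triple through `b` consists of `b` and two of `d, e, f`, not `e, f`; say
`{b, d, f}` (else swap the names `e`, `f`). The other triple through `c` consists of `c` and two of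
`d, e, f`, not `e, f` and not `d, f`: `{c, d, e}`. -/
def C6_stmt : Prop := ∀ (V : Type) [AddCommGroup V] [Module ℝ V] [DecidableEq V]
  (X : Finset V), ra X = 3 → X.card = 6 → ci X ≤ 7 → IsQuad X

/-- C7S. Proof: `l ≤ 3`, `cc_ge_short`: `35 + t ≤ 17 + 4 t`, so `t ≥ 6` collinear triples, any two
sharing at most one point (`triangles_unique`). Choose six of them. Each point lies on at most
three. They cover `18` of the `21` pairs; the uncovered pairs form a graph with three edges in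
which each degree `6 - 2 t_p` is even, hence a triangle `d, e, f`. So `d, e, f` are on two chosen
triples each, the other points on three each, and no chosen triple contains two of `d, e, f`;
counting incidences, each chosen triple contains exactly one of `d, e, f` and two of the four other
points, and each of the six pairs of the four others occurs once. The two pairs with `d` are
disjoint, say `{b, c}`, `{a, g}`; those with `e` are disjoint, and after naming `{c, a}`, `{b, g}`;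
those with `f`: `{a, b}`, `{c, g}`. -/
def C7S_stmt : Prop := ∀ (V : Type) [AddCommGroup V] [Module ℝ V] [DecidableEq V]
  (X : Finset V), ra X = 3 → X.card = 7 → ci X ≤ 17 →
  (∀ K ⊆ X, Collinear ℝ (K : Set V) → K.card ≤ 3) → IsA36 X

/-- C7L. Proof: `4 ≤ l ≤ 6`. `l = 6`: `C(6,3) = 20` circuits. `l = 5`, `u = 2`: `cc_ge_trace` gives
`10 + 7 = 17`, and by C0 the two outside points `y, z` are on a line with a point of `L` (else
`≥ 20`): `IsSecant 5`. `l = 4`, `u = 3`: `cc_ge_trace` gives `4 + 3 * 4 + 1 = 17` and by C0 each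
pair of the three outside points `x, y, z` is on a line with a point of `L` (else `≥ 19`). If `x`,
`y`, `z` are collinear, this line meets `L` in a point `p` of the set: `IsA44`. Otherwise let
`p, q, r ∈ L` be the points with `y z p`, `x z q`, `x y r` collinear; they are distinct (if
`p = q` then `x, y, z` are on the line `p z`), let `w` be the fourth point of `L`: `IsA4333`. -/
def C7L_stmt : Prop := ∀ (V : Type) [AddCommGroup V] [Module ℝ V] [DecidableEq V]
  (X : Finset V), ra X = 3 → X.card = 7 → ci X ≤ 17 →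
  (∃ K ⊆ X, Collinear ℝ (K : Set V) ∧ 4 ≤ K.card) → IsSecant 5 X ∨ IsA44 X ∨ IsA4333 X

/-- C8. Proof: `hh n = C(n-1,3) - (n-4)` for `n ≥ 8` (`hh_cast_big`). If `l ≤ 3`: `cc_ge_short` and
`3 t ≤ C(n,2)` (`three_mul_triangles_le`) give `ci X > hh n` (as in `num_short`: the difference
times `24` is at least `(n-1) (n³ - 13 n² + 42 n - 24) + 24 (n - 4) > 0` for `n ≥ 8`). If `l ≥ 4`:
`cc_ge_trace` gives `ci X - hh n ≥ C(u-1,2) (l-2) (l-3) / 2 - (u-1) (l-2) + l + u - 4` for `u ≥ 1`,
which is `l - 3 > 0` for `u = 1`, `0` for `u = 2`, `(l-3)(l-4)/2 > 0` for `u = 3` (`l ≥ 5`) and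
positive for `u ≥ 4` (it is `(u-1) (l-2) ((u-2)(l-3)/4 - 1) + l + u - 4`). So `u = 2`, and C0 shows
that the line of the two outside points meets `L` in a point of the set. -/
def C8_stmt : Prop := ∀ (V : Type) [AddCommGroup V] [Module ℝ V] [DecidableEq V]
  (X : Finset V), ra X = 3 → 8 ≤ X.card → ci X ≤ hh X.card → IsSecant (X.card - 2) X

/-! ## E. Values -/

/-- V1. Proof: rank at most two (GCO); every circuit has three elements (`rk_circuit`,
`affMat_simp`) and every `3`-subset is a circuit (`isCircuit_of_rk_le_two`). -/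
def V1_stmt : Prop := ∀ (V : Type) [AddCommGroup V] [Module ℝ V] [DecidableEq V]
  (X : Finset V), Collinear ℝ (X : Set V) → ci X = X.card.choose 3

/-- V2. Proof: GCI; the only circuit inside a circuit is itself; `rk_circuit`. -/
def V2_stmt : Prop := ∀ (V : Type) [AddCommGroup V] [Module ℝ V] [DecidableEq V]
  (X : Finset V), IsCirc X → ci X = 1 ∧ X.card = ra X + 1

/-- VT. Table method for labelled sets. `T` are the collinear triples, `N` triples known not to be
collinear. Proof: `ra` of the image of `grow T A` equals `ra` of the image of `A` (an added point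
is on the line through two distinct points of the image of `A`; by GTR/GCO/closure). With the
third hypothesis this gives `ra ≤ 3`, and with the last one that a collinear triple not in `T`
would make all points collinear. So the `3`-circuits are exactly the images of `T`; the other
circuits have four elements (`rk_circuit`, rank `≤ 3`) and contain no collinear triple. The rank
is at least `3` because the points are not collinear (GCO). -/
def VT_stmt : Prop := ∀ (V : Type) [AddCommGroup V] [Module ℝ V] [DecidableEq V] (n : ℕ)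
  (p : Fin n → V), Function.Injective p → ∀ T N : Finset (Finset (Fin n)),
  (∀ t ∈ T, t.card = 3 ∧ Collinear ℝ ((t.image p : Finset V) : Set V)) →
  (∀ t ∈ N, ¬ Collinear ℝ ((t.image p : Finset V) : Set V)) →
  (∃ A : Finset (Fin n), A.card = 3 ∧ (grow T)^[n] A = Finset.univ) →
  ¬ Collinear ℝ (((Finset.univ : Finset (Fin n)).image p : Finset V) : Set V) →
  (∀ t : Finset (Fin n), t.card = 3 → t ∈ T ∨ t ∈ N ∨ (grow T)^[n] t = Finset.univ) →
  ra ((Finset.univ : Finset (Fin n)).image p) = 3 ∧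
  ci ((Finset.univ : Finset (Fin n)).image p) ≤ T.card +
    ((Finset.powersetCard 4 (Finset.univ : Finset (Fin n))).filter
      (fun u => ∀ t ∈ T, ¬ t ⊆ u)).card

/-- VX. From VT with `n = 5`, `T = {012, 034}` and `n = 6`,
`T = {012, 045, 135, 234}`; finite checks by `decide`. -/
def VX_stmt : Prop := ∀ (V : Type) [AddCommGroup V] [Module ℝ V] [DecidableEq V]
  (X : Finset V), (IsCross X → ra X = 3 ∧ ci X ≤ 3) ∧ (IsQuad X → ra X = 3 ∧ ci X ≤ 7)

/-- VY. From VT with `n = 7`; for `IsA44`, `T` = the `4 + 4` triples inside `0123` and `0456`;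
for `IsA4333` (`p, q, r, w, x, y, z = 0, ..., 6`), `T` = the `4` triples inside `0123` and
`560`, `461`, `452`; finite checks by `decide`. -/
def VY_stmt : Prop := ∀ (V : Type) [AddCommGroup V] [Module ℝ V] [DecidableEq V]
  (X : Finset V), (IsA44 X → ra X = 3 ∧ ci X ≤ 17) ∧ (IsA4333 X → ra X = 3 ∧ ci X ≤ 17)

/-- VZ. From VT with `n = 7` (`a, ..., g = 0, ..., 6`), `T = {123, 024, 015, 036, 146, 256}` and
`N = {345}`: the points `d, e, f` are not collinear by `not_fano` (`FanoConf` with `p = g`,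
`a, a' = a, d`, `b, b' = b, e`, `c, c' = f, c`), GTR; the nondegeneracy conditions there follow as
`a, b, g` collinear would make all points collinear. -/
def VZ_stmt : Prop := ∀ (V : Type) [AddCommGroup V] [Module ℝ V] [DecidableEq V]
  (X : Finset V), IsA36 X → ra X = 3 ∧ ci X ≤ 17

/-- VS. Proof: `y, z` are not on the line through `L` (`q ≥ 2`; else all points are collinear).
`ra X = 3`: all points are in the closure of `L` and `y`. A circuit inside `L` is a `3`-subset of
`L`; no circuit contains exactly one of `y`, `z` (it would be in the closure of `L`, of rank `2`);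
a circuit containing `y`, `z` and `p` equals `{p, y, z}`; a circuit with `y`, `z` but not `p` has
exactly two points on `L` (at most four points since the rank is `3`; not one point `a ≠ p`, as
`a` and `p` would then both be on the line `y z`). So there are at most
`C(q,3) + 1 + C(q-1,2)` circuits. -/
def VS_stmt : Prop := ∀ (V : Type) [AddCommGroup V] [Module ℝ V] [DecidableEq V]
  (X : Finset V) (q : ℕ), 3 ≤ q → IsSecant q X →
  ra X = 3 ∧ ci X ≤ q.choose 3 + 1 + (q - 1).choose 2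

/-- KET. Proof: line: `ra = 2` (EB, GCO), V1, `AR3` computation
`TT m m 2 = C(m,3)`, `TT m (m+1) 2 = C(m+1,3)`; cross: VX and `hh 5 = 3 ≤ ci`
(`affMat_good`), `TT 3 5 3 = 3`. -/
def KET_stmt : Prop := ∀ (V : Type) [AddCommGroup V] [Module ℝ V] [DecidableEq V]
  (m : ℕ) (B : Finset V), 3 ≤ m → KindT m B → (ci B : ℤ) = TT m B.card (ra B)

/-- KE2. Proof: point: `ci = 0` (V1), `ra = 1`; circuit: V2; `TT 2 n r = n - r`. -/
def KE2_stmt : Prop := ∀ (V : Type) [AddCommGroup V] [Module ℝ V] [DecidableEq V]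
  (B : Finset V), Kind2 B → (ci B : ℤ) = TT 2 B.card (ra B)

/-- KEU. Proof: `hh |B| ≤ ci B` (`affMat_good`, `affMat_restrict`) and the upper bounds VX, VY,
VZ, VS; `hh 6 = 7`, `hh 7 = 17`, `hh (q+2) = C(q,3) + 1 + C(q-1,2)` for `q ≥ 5`;
`UU q (q+2) 1 = hh (q+2)`, `UU 5 6 1 = 17 - 10 = 7`. -/
def KEU_stmt : Prop := ∀ (V : Type) [AddCommGroup V] [Module ℝ V] [DecidableEq V]
  (q : ℕ) (B : Finset V), 4 ≤ q → IsTop q B → ra B = 3 ∧ (ci B : ℤ) = UU q B.card 1

/-! ## F. Equality implies the decomposition -/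

/-- ET2. Proof: strong induction on `|X|`. `X = ∅`: no pieces. If `affMat X` is not `Conn`, split
by ESPL; `ci X = ci A + ci (X \ A)` (ECI), `T_bound` (`m = 2`) for both parts and
`TT 2` additive, so equality holds for both; use the induction hypothesis and EUN. If `Conn`
and nonempty: MS2, one piece (`|X| = 1` or circuit, GCI). -/
def ET2_stmt : Prop := ∀ (V : Type) [AddCommGroup V] [Module ℝ V] [DecidableEq V]
  (X : Finset V), (ci X : ℤ) = TT 2 X.card (ra X) → DecR Kind2 X

/-- ETM. Proof: as ET2 if not `Conn`. If `Conn` and nonempty, let `r = ra X`. `r = 1`: `|X| = 1`,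
`ci X = 0` but `TT m 1 1 = C(m,2) - C(m+1,3) < 0`. `r = 2`: V1 and AR3, one piece, a line
(GCO). `r = 3`: `TT m n 3 ≤ hh n ≤ ci X` (`T_le_hh`, `affMat_good`), so equality and AR2:
`m = 3`, `n = 5`, `ci X = 3`: C5. `r ≥ 4`: impossible by MST. -/
def ETM_stmt : Prop := ∀ (V : Type) [AddCommGroup V] [Module ℝ V] [DecidableEq V]
  (m : ℕ) (X : Finset V), 3 ≤ m → (ci X : ℤ) = TT m X.card (ra X) → DecR (KindT m) X

/-- CTOP. The case of rank three. Proof: `UU q n 1 = C(q,2) (n - q - 2) + hh (q+2) ≤ hh n ≤ ci X`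
(`hh_tangent`, `affMat_good`), so both are equalities and AR1 gives `n = q + 2` or `q = 5`,
`n = 6`; apply C6, C7S, C7L, C8 (`hh 6 = 7`, `hh 7 = 17`). -/
def CTOP_stmt : Prop := ∀ (V : Type) [AddCommGroup V] [Module ℝ V] [DecidableEq V]
  (q : ℕ) (X : Finset V), 4 ≤ q → ra X = 3 → (ci X : ℤ) = UU q X.card 1 → IsTop q X

/-- EUM. Proof: strong induction on `|X|`. `k = 1`: CTOP, rest empty. `k ≥ 2`: by MSX `affMat X`
is not `Conn`; ESPL gives a splitting `A`, `X \ A`; one of the ranks is odd, say (by symmetry)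
`ra A = 2 k₁ + 1`, `ra (X \ A) = 2 k₂`, `k₂ ≥ 1`, `k = k₁ + k₂`; `ci X = ci A + ci (X \ A)`. If
`k₁ = 0`, then `|A| = 1`, `ci A = 0`, `ci (X \ A) ≥ TT q (n-1) (2 k)` (`T_bound`), but
`UU q n k = TT q (n-1) (2 k) + hh (q+2) - C(q+1,3)` and `hh (q+2) < C(q+1,3)` (`q ≥ 3`), a
contradiction. If `k₁ ≥ 1`: `UU q n k = UU q |A| k₁ + TT q |X \ A| (2 k₂)`, so `U_bound` for
`A` and `T_bound` for `X \ A` are equalities; induction hypothesis for `A`, ETM for `X \ A`, EUN
for the rest pieces. -/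
def EUM_stmt : Prop := ∀ (V : Type) [AddCommGroup V] [Module ℝ V] [DecidableEq V]
  (q k : ℕ) (X : Finset V), 4 ≤ q → 1 ≤ k → ra X = 2 * k + 1 →
  (ci X : ℤ) = UU q X.card k → DecTop (IsTop q) (KindT q) X

/-! ## G. Converse and assembly -/

/-- FT. Proof: ESUM and linearity of `TT m`. -/
def FT_stmt : Prop := ∀ (V : Type) [AddCommGroup V] [Module ℝ V] [DecidableEq V]
  (m : ℕ) (K : Finset V → Prop) (X : Finset V),
  (∀ B, K B → (ci B : ℤ) = TT m B.card (ra B)) → DecR K X → (ci X : ℤ) = TT m X.card (ra X)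

/-- FU. Proof: `ra B₀ = 3` (KEU), ECI, KEU for `B₀`, KET and FT for the rest (of rank
`2 k - 2`), `UU q n k = UU q n₀ 1 + TT q (n - n₀) (2 k - 2)`. -/
def FU_stmt : Prop := ∀ (V : Type) [AddCommGroup V] [Module ℝ V] [DecidableEq V]
  (q k : ℕ) (X : Finset V), 4 ≤ q → ra X = 2 * k + 1 → DecTop (IsTop q) (KindT q) X →
  (ci X : ℤ) = UU q X.card k

/-- FSP. Proof: GRA for the (nonempty) pieces and for `X`. -/
def FSP_stmt : Prop := ∀ (V : Type) [AddCommGroup V] [Module ℝ V] [DecidableEq V]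
  (K : Finset V → Prop) (d : ℕ) (X : Finset V), X.Nonempty →
  (Splits K d X ↔ ra X = d + 1 ∧ DecR K X)

/-- FST. Proof: GRA; for the direction from left to right take the pieces other than `B₀` for the
rest `X \ B₀`; as in ESUM, `ra X ≤ ra B₀ + ra (X \ B₀)` and
`ra (X \ B₀) ≤ ∑ ra` are equalities. -/
def FST_stmt : Prop := ∀ (V : Type) [AddCommGroup V] [Module ℝ V] [DecidableEq V]
  (T K : Finset V → Prop) (d : ℕ) (X : Finset V), X.Nonempty →
  (SplitsTop T K d X ↔ ra X = d + 1 ∧ DecTop T K X)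

/-- RLE. `radonMin_le_cc` in terms of the rank: copy the proof of `radonMin_le_cc`
(Formula.lean), where only `r ≤ d + 1` is used. -/
def RLE_stmt : Prop := ∀ (V : Type) [AddCommGroup V] [Module ℝ V] [DecidableEq V]
  (d : ℕ) (X : Finset V), 1 ≤ d → ra X ≤ d + 1 → d + 2 ≤ X.card → radonMin d X.card ≤ ci X

/-- RKD. Proof: `ra X ≤ d + 1`. If `ra X ≤ d` and `d ≥ 2`, then RLE for `d - 1` and AR4 give
`radonMin d s < radonMin (d-1) s ≤ ci X`; if `d = 1`, `ra X ≤ 1` contradicts `|X| ≥ 3` (EB). -/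
def RKD_stmt : Prop := ∀ (V : Type) [AddCommGroup V] [Module ℝ V] [DecidableEq V]
  (d : ℕ) (X : Finset V), 1 ≤ d → ra X ≤ d + 1 → d + 2 ≤ X.card → ci X = radonMin d X.card →
  ra X = d + 1

/-- FEX. Proof: RKD, then by cases as in `Extremal` (`d = 2 k - 1` or `d = 2 k`): AR5/AR6 turn
`ci X = radonMin d s` into `ci X = TT 2 ..`, `TT 3 ..`, `TT (s/k) ..` or `UU ((s-2)/k) ..`; these
are equivalent to `DecR Kind2`, `DecR (KindT 3)`, `DecR (KindT (s/k))` (`s / k ≥ 4`),
`DecTop (IsTop q) (KindT q)` (`q = (s-2)/k ≥ 4`) by ET2, KE2, ETM, KET, EUM, FT, FU; FSP and FST;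
`KindT 3 B ↔ IsLine 3 B ∨ IsLine 4 B ∨ IsCross B`, and for `m ≥ 4`,
`KindT m B ↔ IsLine m B ∨ IsLine (m+1) B`. -/
def FEX_stmt : Prop := ∀ (V : Type) [AddCommGroup V] [Module ℝ V] [DecidableEq V]
  (d : ℕ) (X : Finset V), 1 ≤ d → ra X ≤ d + 1 → d + 2 ≤ X.card →
  (ci X = radonMin d X.card ↔ Extremal d X)

/-- FIN. The final theorem. Proof: `ncard_primitive_eq`, `exists_min`, `radonMin_le_cc`
(or `Pool.Agent.Results.MP_bb0bb6_co.MinRadon.result`): the left side is `ci S = radonMin d s`;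
`rk_affMat_le`; FEX. Use `classical`. -/
def FIN_stmt : Prop := ∀ (d : ℕ) (S : Finset (EuclideanSpace ℝ (Fin d))), 1 ≤ d →
  d + 2 ≤ S.card →
  ((∀ S' : Finset (EuclideanSpace ℝ (Fin d)), S'.card = S.card →
    {P : Sym2 (Finset (EuclideanSpace ℝ (Fin d))) | IsPrimitiveIn S P}.ncard ≤
      {P : Sym2 (Finset (EuclideanSpace ℝ (Fin d))) | IsPrimitiveIn S' P}.ncard) ↔
    Extremal d S)

end RadonQ2
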